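import Pool.Agent.CbRank.Bridge

/-!
# MP_87d6b4_an, Q1: the optimal constant in the rank bound for cb-norms is `c^* = 1/√2`

Definitions are in `Pool/Agent/CbRank/OpSpace.lean`.

Outline of the proof.
* Every `u` of rank at most `n` satisfies `‖u‖_cb ≤ ((n+1)/2) ‖u‖` (`GeneralFinal.lean`): integration
  by parts over the unit ball of the range of `u` against the (almost everywhere defined) derivative
  of the norm; this is smaller than `n/√2` for `n ≥ 3`.
* For rank at most `2`, `‖u‖_cb ≤ √2 ‖u‖` (`TwoFinal.lean`): John position for the range of `u`,
  and a decomposition of a positive `2 × 2` block matrix into elementary and Toeplitz blocks.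
* The map from the two-dimensional row space to the two-dimensional column space shows that
  `1/√2` cannot be improved (`Lower.lean`).
-/

namespace Pool.Agent.Results.MP_87d6b4_an.ConstantIsInvSqrtTwo

universe u

/-- The constant `c^*` equals `1/√2`, and the infimum defining it is attained. -/
theorem result : OpSp.cStar.{u} = 1 / Real.sqrt 2 ∧ OpSp.IsRankBound.{u} (1 / Real.sqrt 2) :=
  ⟨OpSp.cStar_eq.trans (CbRank.cStar_eq_of_two CbRank.stmt_two),
    (OpSp.isRankBound_iff _).2 (CbRank.isRankBound_of_two CbRank.stmt_two)⟩

end Pool.Agent.Results.MP_87d6b4_an.ConstantIsInvSqrtTwo
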